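import Pool.Agent.Q82.AlmIso2

open MeasureTheory Filter Topology Set Cardinal
open scoped ENNReal
open Pool.Agent.Q82.AlmIso

namespace Pool.Agent.Results.MP_80693f_an.FreeSets

/-- There are measure spaces `(Ω₁, μ₁)` and `(Ω₂, μ₂)` such that `B(L^∞(Ω₁), L^∞(Ω₂))` has neither
property (A) nor property (B₂).  More precisely, for each `n ≥ 3` there is a positive
`2/n`-isometric operator at distance at least `1` from every isometric operator. -/
theorem result : ∃ (Ω₁ Ω₂ : Type) (_ : MeasurableSpace Ω₁) (_ : MeasurableSpace Ω₂)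
    (μ₁ : Measure Ω₁) (μ₂ : Measure Ω₂), ¬ PropA μ₁ μ₂ ∧ ¬ PropB₂ μ₁ μ₂ ∧
      ∀ n : ℕ, 3 ≤ n → ∃ T : Op μ₁ μ₂, IsPos T ∧ EpsIso (2 / n) T ∧
        ∀ V : Op μ₁ μ₂, EpsIso 0 V → 1 ≤ opDist T V := by
  obtain ⟨L, hL⟩ : ∃ L : Type, ∀ n : ℕ, aleph n ≤ #L := by
    refine ⟨(aleph Ordinal.omega0 : Cardinal.{0}).out, fun n => ?_⟩
    rw [mk_out, aleph_le_aleph]
    exact (Ordinal.natCast_lt_omega0 n).le
  have key : ∀ n : ℕ, 3 ≤ n → ∃ T : Op (Measure.count : Measure (Dom L))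
      (Measure.count : Measure (Cod L)), IsPos T ∧ EpsIso (2 / n) T ∧
        ∀ V : Op (Measure.count : Measure (Dom L)) (Measure.count : Measure (Cod L)),
          EpsIso 0 V → 1 ≤ opDist T V :=
    fun n hn => ⟨TT n (by omega), TT_isPos n (by omega), TT_epsIso n hn,
      fun V hV => one_le_dist hL n hn V hV⟩
  -- a function `δ` tending to zero is smaller than `1` at some `2 / n`
  have small : ∀ δ : ℝ → ℝ, Tendsto δ (𝓝[>] 0) (𝓝 0) →
      ∃ n : ℕ, 3 ≤ n ∧ δ (2 / n) < 1 := by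
    intro δ hδ
    have h1 : Tendsto (fun n : ℕ => (2 : ℝ) / n) atTop (𝓝[>] 0) := by
      refine tendsto_nhdsWithin_iff.2 ⟨tendsto_const_div_atTop_nhds_zero_nat 2, ?_⟩
      filter_upwards [eventually_gt_atTop 0] with n hn
      have : (0 : ℝ) < n := by exact_mod_cast hn
      exact mem_Ioi.2 (by positivity)
    have h2 := (hδ.comp h1).eventually (Iio_mem_nhds zero_lt_one)
    obtain ⟨n, hn, hn'⟩ := (h2.and (eventually_ge_atTop 3)).exists
    exact ⟨n, hn', hn⟩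
  have hIoo : ∀ n : ℕ, 3 ≤ n → (2 : ℝ) / n ∈ Ioo (0 : ℝ) 1 := by
    intro n hn
    have : (3 : ℝ) ≤ n := by exact_mod_cast hn
    constructor
    · positivity
    · rw [div_lt_one (by linarith)]; linarith
  refine ⟨Dom L, Cod L, inferInstance, inferInstance, Measure.count, Measure.count, ?_, ?_, key⟩
  · rintro ⟨δ, hδ, h⟩
    obtain ⟨n, hn, hlt⟩ := small δ hδ
    obtain ⟨T, _, hT, hV⟩ := key n hn
    obtain ⟨V, hV0, hVT⟩ := h _ (hIoo n hn) T hT
    exact absurd (lt_of_le_of_lt hVT hlt) (not_lt.2 (hV V hV0))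
  · rintro ⟨δ, hδ, h⟩
    obtain ⟨n, hn, hlt⟩ := small δ hδ
    obtain ⟨T, hTp, hT, hV⟩ := key n hn
    obtain ⟨V, _, hV0, hVT⟩ := h _ (hIoo n hn) T hTp hT
    exact absurd (lt_of_le_of_lt hVT hlt) (not_lt.2 (hV V hV0))

end Pool.Agent.Results.MP_80693f_an.FreeSets
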